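import Pool.Agent.Lib.MP_55cac8_lc.OWScheme

set_option autoImplicit false

namespace Pool.Agent.Results.MP_55cac8_lc.OneWayWords

/-- `1/2 = (n+1)/2` modulo the odd number `n`. -/
def half (n : ℕ) : ZMod n := ((n + 1) / 2 : ℕ)

/-- `u_{1/2} = u_{(n+1)/2}` modulo `n`. -/
def U (n : ℕ) : Matrix (Fin 2) (Fin 2) (ZMod n) := !![1, half n; 0, 1]

/-- The four letters `u_1, u_{-1}, v_1, v_{-1}` modulo `n`. -/
def S (n : ℕ) : Fin 4 → Matrix (Fin 2) (Fin 2) (ZMod n) :=
  ![!![1, 1; 0, 1], !![1, -1; 0, 1], !![1, 0; 1, 1], !![1, 0; -1, 1]]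

/-- The six letters `u_1, u_{-1}, v_1, v_{-1}, t, t⁻¹` modulo `n`, where `t = diag(2, 1/2)`. -/
def St (n : ℕ) : Fin 6 → Matrix (Fin 2) (Fin 2) (ZMod n) :=
  ![!![1, 1; 0, 1], !![1, -1; 0, 1], !![1, 0; 1, 1], !![1, 0; -1, 1],
    !![2, 0; 0, half n], !![half n, 0; 0, 2]]

/-- The value of a word in the letters `g 0, ..., g (r-1)`. -/
def val {n r : ℕ} (g : Fin r → Matrix (Fin 2) (Fin 2) (ZMod n)) (w : List (Fin r)) :
    Matrix (Fin 2) (Fin 2) (ZMod n) := (w.map g).prod

/-- `M = u_{1/2}` modulo `n`, up to sign (for a prime `n`: in `PSL_2(F_n)`). -/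
def IsU (n : ℕ) (M : Matrix (Fin 2) (Fin 2) (ZMod n)) : Prop := M = U n ∨ M = -U n

/-- `w'` arises from `w` by replacing at most `K` letters at each end by at most `K` letters. -/
def EndStep {r : ℕ} (K : ℕ) (w w' : List (Fin r)) : Prop :=
  ∃ Y a c a' c' : List (Fin r), w = a ++ Y ++ c ∧ w' = a' ++ Y ++ c' ∧
    a.length ≤ K ∧ c.length ≤ K ∧ a'.length ≤ K ∧ c'.length ≤ K

/-- A word with a head is a pair `(L, R)` of words; the word is `L ++ R` and the head is between
`L` and `R`.  A step replaces at most `K` letters on each side of the head by at most `K`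
letters. -/
def HeadStep {r : ℕ} (K : ℕ) (p p' : List (Fin r) × List (Fin r)) : Prop :=
  ∃ L R a c a' c' : List (Fin r), p = (L ++ a, c ++ R) ∧ p' = (L ++ a', c' ++ R) ∧
    a.length ≤ K ∧ c.length ≤ K ∧ a'.length ≤ K ∧ c'.length ≤ K

/-- An online scheme for inputs with `M` digits in base `b`: `T j m` is the set of the candidates
after the first `j` digits, which form the number `m`, have been read.  There are at most `c`
candidates at every time, the first ones satisfy `init`, and every candidate arises by one step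
from a candidate for the number without its last digit. -/
def Scheme {α : Type} (b M : ℕ) (c : ℝ) (init : α → Prop) (step : α → α → Prop)
    (T : ℕ → ℕ → Finset α) : Prop :=
  (∀ p ∈ T 0 0, init p) ∧ ∀ j m : ℕ, j ≤ M → m < b ^ j →
    ((T j m).card : ℝ) ≤ c ∧ (1 ≤ j → ∀ p' ∈ T j m, ∃ p ∈ T (j - 1) (m / b), step p p')

/-! ### The scheme with the letter `t` -/

/-- the number of letters `u_{-1}` -/
def cor (n : ℕ) : ℕ := 4 * (n / 4 / 2 + 1) - (n / 2 + 1)

theorem cor_le (n : ℕ) : cor n ≤ 3 := by unfold cor; omega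

theorem cor_add (n : ℕ) : cor n + (n / 2 + 1) = 4 * (n / 4 / 2 + 1) := by unfold cor; omega

/-- the word for `u_{[n/2]+1}` -/
def word (n : ℕ) : List (Fin 6) :=
  if h : n = 0 then [0] else 4 :: (word (n / 4) ++ (5 :: List.replicate (cor n) 1))
termination_by n
decreasing_by omega

theorem two_half {n : ℕ} (hn : Odd n) : (2 : ZMod n) * half n = 1 := Pool.Agent.OW.two_half hn

theorem val_replicate (n j : ℕ) :
    val (St n) (List.replicate j 1) = !![1, -(j : ZMod n); 0, 1] := by
  induction j with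
  | zero =>
    rw [val, List.replicate_zero, List.map_nil, List.prod_nil]
    ext i j
    rcases (by decide : ∀ k : Fin 2, k = 0 ∨ k = 1) i with rfl | rfl <;>
      rcases (by decide : ∀ k : Fin 2, k = 0 ∨ k = 1) j with rfl | rfl <;> simp
  | succ j ih =>
    have h1 : val (St n) (List.replicate (j + 1) 1) = St n 1 * val (St n) (List.replicate j 1) := by
      rw [List.replicate_succ]
      simp only [val, List.map_cons, List.prod_cons]
    rw [h1, ih]
    have h2 : St n 1 = !![1, -1; 0, 1] := rfl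
    rw [h2, Matrix.mul_fin_two]
    push_cast
    congr 1
    ext i j
    rcases (by decide : ∀ k : Fin 2, k = 0 ∨ k = 1) i with rfl | rfl <;>
      rcases (by decide : ∀ k : Fin 2, k = 0 ∨ k = 1) j with rfl | rfl <;> simp <;> ring

theorem val_word {n : ℕ} (hn : Odd n) (m : ℕ) :
    val (St n) (word m) = !![1, ((m / 2 + 1 : ℕ) : ZMod n); 0, 1] := by
  induction m using Nat.strong_induction_on with
  | _ m ih =>
    rw [word]
    split_ifs with h
    · subst h
      simp [val, St]
    · have h1 : val (St n) (4 :: (word (m / 4) ++ (5 :: List.replicate (cor m) 1))) =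
          St n 4 * (val (St n) (word (m / 4)) * (St n 5 * val (St n) (List.replicate (cor m) 1))) := by
        simp only [val, List.map_cons, List.prod_cons, List.map_append, List.prod_append]
      have h2 : St n 4 = !![2, 0; 0, half n] := rfl
      have h3 : St n 5 = !![half n, 0; 0, 2] := rfl
      have h4 := two_half hn
      have h5 : ((cor m : ℕ) : ZMod n) + ((m / 2 + 1 : ℕ) : ZMod n) = 4 * ((m / 4 / 2 + 1 : ℕ) : ZMod n) := by
        exact_mod_cast congrArg (Nat.cast : ℕ → ZMod n) (cor_add m)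
      rw [h1, ih (m / 4) (by omega), val_replicate, h2, h3, Matrix.mul_fin_two, Matrix.mul_fin_two,
        Matrix.mul_fin_two]
      generalize half n = a at *
      generalize ((m / 4 / 2 + 1 : ℕ) : ZMod n) = y at *
      generalize ((m / 2 + 1 : ℕ) : ZMod n) = z at *
      generalize ((cor m : ℕ) : ZMod n) = q at *
      ext i j
      rcases (by decide : ∀ k : Fin 2, k = 0 ∨ k = 1) i with rfl | rfl <;>
        rcases (by decide : ∀ k : Fin 2, k = 0 ∨ k = 1) j with rfl | rfl <;>
        simp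
      · linear_combination h4
      · linear_combination (-q) * h4 - h5
      · linear_combination h4

theorem step_word (m : ℕ) : EndStep 4 (word (m / 4)) (word m) := by
  rw [word.eq_1 m]
  split_ifs with h
  · subst h
    exact ⟨word 0, [], [], [], [], by simp, by rw [word]; simp, by simp, by simp, by simp, by simp⟩
  · refine ⟨word (m / 4), [], [], [4], 5 :: List.replicate (cor m) 1, by simp, by simp, by simp,
      by simp, by simp, ?_⟩
    have := cor_le m
    simp only [List.length_cons, List.length_replicate]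
    omega

/-- (1) No online scheme in the four letters; (2) there is one with the letter `t`. -/
theorem result :
    (∀ b K : ℕ, 2 ≤ b → ∃ δ : ℝ, 0 < δ ∧ ∃ C : ℝ, ∀ M : ℕ,
      (∀ T : ℕ → ℕ → Finset (List (Fin 4)),
        Scheme b M ((b : ℝ) ^ (δ * M)) (fun w => w.length ≤ K * M) (EndStep K) T →
        ({n : ℕ | n < b ^ M ∧ Odd n ∧ ∃ w ∈ T M n, IsU n (val (S n) w)}.ncard : ℝ) ≤
          C * (b : ℝ) ^ ((1 - δ) * M)) ∧
      (∀ T : ℕ → ℕ → Finset (List (Fin 4) × List (Fin 4)),
        Scheme b M ((b : ℝ) ^ (δ * M)) (fun p => p.1.length + p.2.length ≤ K * M) (HeadStep K) T →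
        ({n : ℕ | n < b ^ M ∧ Odd n ∧ ∃ p ∈ T M n, IsU n (val (S n) (p.1 ++ p.2))}.ncard : ℝ) ≤
          C * (b : ℝ) ^ ((1 - δ) * M))) ∧
    (∃ W : ℕ → List (Fin 6), (∀ m : ℕ, EndStep 4 (W (m / 4)) (W m)) ∧
      ∀ n : ℕ, Odd n → val (St n) (W n) = U n) := by
  refine ⟨?_, ⟨word, step_word, ?_⟩⟩
  · intro b K hb
    obtain ⟨δ, hδ, C, H⟩ := Pool.Agent.OW.no_scheme b K hb
    refine ⟨δ, hδ, C, fun M => ⟨fun T hT => ?_, fun T hT => ?_⟩⟩
    · exact (H M).1 T hT _ fun n hn => hn
    · exact (H M).2 T hT _ fun n hn => hn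
  · intro n hn
    rw [val_word hn n, U, half]
    obtain ⟨k, rfl⟩ := hn
    have h1 : (2 * k + 1) / 2 + 1 = (2 * k + 1 + 1) / 2 := by omega
    rw [h1]

end Pool.Agent.Results.MP_55cac8_lc.OneWayWords
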