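import Pool.Agent.Lib.MP_55cac8_lc.OWFrame

set_option autoImplicit false

namespace Pool.Agent.Results.MP_55cac8_lc.RigidFrames

/-- `1/2 = (n+1)/2` modulo the odd number `n`. -/
def half (n : ℕ) : ZMod n := ((n + 1) / 2 : ℕ)

/-- `u_{1/2} = u_{(n+1)/2}` modulo `n`. -/
def U (n : ℕ) : Matrix (Fin 2) (Fin 2) (ZMod n) := !![1, half n; 0, 1]

/-- The four letters `u_1, u_{-1}, v_1, v_{-1}` modulo `n`. -/
def S (n : ℕ) : Fin 4 → Matrix (Fin 2) (Fin 2) (ZMod n) :=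
  ![!![1, 1; 0, 1], !![1, -1; 0, 1], !![1, 0; 1, 1], !![1, 0; -1, 1]]

/-- The value modulo `n` of a word in the four letters. -/
def val (n : ℕ) (w : List (Fin 4)) : Matrix (Fin 2) (Fin 2) (ZMod n) := (w.map (S n)).prod

/-- `M = u_{1/2}` modulo `n`, up to sign (for a prime `n`: in `PSL_2(F_n)`). -/
def IsU (n : ℕ) (M : Matrix (Fin 2) (Fin 2) (ZMod n)) : Prop := M = U n ∨ M = -U n

/-- **Rigidity of short words.** In the interval `[x, x + x ^ δ]` at most `K / 2` odd numbers `n` have words for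
`u_{1/2}` modulo `n` with a common frame `(X, Z)` of total length at most `K ln x` (and an integer matrix with entries
at most `x ^ (1 / 2 - ε)` between `X` and `Z`), and at most `K / 2` have words with a common core `Y` of length at most
`K ln x` (between matrices `A`, `B` of `SL_2(ℤ)` with `|A_ij B_kl| ≤ x ^ (1 / 2 - ε)`). -/
theorem result (K : ℕ) (ε : ℝ) (hε : 0 < ε) (hε2 : ε ≤ 1 / 2) :
    ∃ δ : ℝ, 0 < δ ∧ ∃ x₀ : ℝ, ∀ x : ℝ, x₀ ≤ x →
      (∀ X Z : List (Fin 4), (X.length : ℝ) + Z.length ≤ K * Real.log x →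
        {n : ℕ | Odd n ∧ x ≤ n ∧ (n : ℝ) ≤ x + x ^ δ ∧ ∃ V : Matrix (Fin 2) (Fin 2) ℤ,
          (∀ i j, |(V i j : ℝ)| ≤ x ^ (1 / 2 - ε)) ∧
          IsU n (val n X * V.map (Int.cast : ℤ → ZMod n) * val n Z)}.ncard ≤ K / 2) ∧
      (∀ Y : List (Fin 4), (Y.length : ℝ) ≤ K * Real.log x →
        {n : ℕ | Odd n ∧ x ≤ n ∧ (n : ℝ) ≤ x + x ^ δ ∧ ∃ A B : Matrix (Fin 2) (Fin 2) ℤ,
          A.det = 1 ∧ B.det = 1 ∧
          (∀ i j k l, |(A i j : ℝ)| * |(B k l : ℝ)| ≤ x ^ (1 / 2 - ε)) ∧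
          IsU n (A.map (Int.cast : ℤ → ZMod n) * val n Y *
            B.map (Int.cast : ℤ → ZMod n))}.ncard ≤ K / 2) := by
  obtain ⟨δ, hδ, x₀, -, H⟩ := Pool.Agent.OW.frames K hε hε2
  refine ⟨δ, hδ, x₀, fun x hx => ⟨fun X Z h => ?_, fun Y h => ?_⟩⟩
  · exact ((H x hx).1 X Z h _ fun n hn => hn).2
  · exact ((H x hx).2 Y h _ fun n hn => hn).2

end Pool.Agent.Results.MP_55cac8_lc.RigidFrames
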